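import Pool.Agent.D0H90.SM.Stm2

set_option autoImplicit false

/-! Project SM (helper90), module INVK: invariance at points of all algebras. -/

namespace Pool.Agent.D0H52.SM

open MvPolynomial Matrix Pool.Agent.D0H90.SM

universe u

section

variable {k : Type u} [Field k] {n d : ℕ}

/-- the difference of the two sides -/
noncomputable def Idn (b : ℕ) (P Q : Pol n d k) (S : Type u) [CommRing S] [Algebra k S]
    (A A' : Matrix (Fin n) (Fin n) S) (c : Cf n d → S) : S :=
  aeval c P * aeval (conj A A' c) Q - A.det ^ b * (aeval (conj A A' c) P * aeval c Q)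

theorem Idn_map (hB : S_BASE.{u}) (b : ℕ) (P Q : Pol n d k) {S T : Type u} [CommRing S]
    [Algebra k S] [CommRing T] [Algebra k T] (ψ : S →ₐ[k] T) (A A' : Matrix (Fin n) (Fin n) S)
    (c : Cf n d → S) :
    ψ (Idn b P Q S A A' c) = Idn b P Q T (A.map ψ) (A'.map ψ) (fun a => ψ (c a)) := by
  obtain ⟨-, -, -, -, h5, -⟩ := hB
  have h1 := h5 S T (ψ : S →+* T) n d c A A'
  have h2 : conj (A.map ψ) (A'.map ψ) (fun a => ψ (c a)) = fun a => ψ (conj A A' c a) := h1
  have h3 : ψ A.det = (A.map ψ).det := AlgHom.map_det ψ A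
  unfold Idn
  rw [map_sub, map_mul, map_mul, map_mul, map_pow, h3, h2]
  simp only [MvPolynomial.comp_aeval_apply]

/-- the coordinate ring of pairs of a matrix and a tuple -/
abbrev PA (n d : ℕ) (k : Type u) [Field k] : Type u := MvPolynomial ((Fin n × Fin n) ⊕ Cf n d) k

/-- the generic matrix -/
noncomputable def gA (n d : ℕ) (k : Type u) [Field k] : Matrix (Fin n) (Fin n) (PA n d k) :=
  Matrix.of fun i j => X (Sum.inl (i, j))

theorem eval_gA (S : Type u) [CommRing S] [Algebra k S] (A : Matrix (Fin n) (Fin n) S)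
    (c : Cf n d → S) :
    (gA n d k).map (aeval (R := k) (Sum.elim (fun p : Fin n × Fin n => A p.1 p.2) c)) = A := by
  ext i j
  rw [Matrix.map_apply]
  unfold gA
  rw [Matrix.of_apply, aeval_X, Sum.elim_inl]

theorem eval_det (S : Type u) [CommRing S] [Algebra k S] (A : Matrix (Fin n) (Fin n) S)
    (c : Cf n d → S) :
    aeval (R := k) (Sum.elim (fun p : Fin n × Fin n => A p.1 p.2) c) (gA n d k).det = A.det := by
  have h := AlgHom.map_det (aeval (R := k) (Sum.elim (fun p : Fin n × Fin n => A p.1 p.2) c))
    (gA n d k)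
  rw [h]
  congr 1
  exact eval_gA S A c

theorem spec (S : Type u) [CommRing S] [Algebra k S] (A A' : Matrix (Fin n) (Fin n) S)
    (hA : A * A' = 1) (c : Cf n d → S) :
    ∃ ψ : Localization.Away (gA n d k).det →ₐ[k] S,
      ∀ F : PA n d k, ψ (algebraMap _ _ F) =
        aeval (R := k) (Sum.elim (fun p : Fin n × Fin n => A p.1 p.2) c) F := by
  have hu : IsUnit A.det := by
    have h1 : A.det * A'.det = 1 := by rw [← Matrix.det_mul, hA, Matrix.det_one]
    exact IsUnit.of_mul_eq_one _ h1
  have hf : ∀ y : Submonoid.powers (gA n d k).det,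
      IsUnit (aeval (R := k) (Sum.elim (fun p : Fin n × Fin n => A p.1 p.2) c) (y : PA n d k)) := by
    rintro ⟨y, m, rfl⟩
    change IsUnit (aeval (R := k) (Sum.elim (fun p : Fin n × Fin n => A p.1 p.2) c)
      ((gA n d k).det ^ m))
    rw [map_pow, eval_det]
    exact hu.pow m
  refine ⟨IsLocalization.liftAlgHom (M := Submonoid.powers (gA n d k).det)
    (S := Localization.Away (gA n d k).det) hf, fun F => ?_⟩
  rw [IsLocalization.liftAlgHom_apply]
  exact IsLocalization.lift_eq _ F

/-- the identity for the generic matrix -/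
theorem generic (hB : S_BASE.{u}) [Infinite k] (b : ℕ) (P Q : Pol n d k) (h : Semi b P Q) :
    Idn b P Q (Localization.Away (gA n d k).det)
      ((gA n d k).map (algebraMap (PA n d k) (Localization.Away (gA n d k).det)))
      ((gA n d k).map (algebraMap (PA n d k) (Localization.Away (gA n d k).det)))⁻¹
      (fun a : Cf n d => algebraMap (PA n d k) (Localization.Away (gA n d k).det)
        (X (Sum.inr a))) = 0 := by
  obtain ⟨E, hE⟩ : ∃ E, E = Idn b P Q (Localization.Away (gA n d k).det)
      ((gA n d k).map (algebraMap (PA n d k) (Localization.Away (gA n d k).det)))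
      ((gA n d k).map (algebraMap (PA n d k) (Localization.Away (gA n d k).det)))⁻¹
      (fun a : Cf n d => algebraMap (PA n d k) (Localization.Away (gA n d k).det)
        (X (Sum.inr a))) := ⟨_, rfl⟩
  rw [← hE]
  obtain ⟨⟨F, s⟩, hF⟩ := IsLocalization.surj (Submonoid.powers (gA n d k).det) E
  change E * algebraMap _ _ (s : PA n d k) = algebraMap _ _ F at hF
  have hdet : algebraMap (PA n d k) (Localization.Away (gA n d k).det) (gA n d k).det =
      ((gA n d k).map (algebraMap (PA n d k) (Localization.Away (gA n d k).det))).det :=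
    RingHom.map_det (algebraMap (PA n d k) (Localization.Away (gA n d k).det)) (gA n d k)
  have hunit : IsUnit ((gA n d k).map
      (algebraMap (PA n d k) (Localization.Away (gA n d k).det))).det := by
    rw [← hdet]
    exact IsLocalization.Away.algebraMap_isUnit _
  have hmul := Matrix.mul_nonsing_inv _ hunit
  have hpt : ∀ (A A' : Matrix (Fin n) (Fin n) k), A * A' = 1 → ∀ c : Cf n d → k,
      aeval (R := k) (Sum.elim (fun p : Fin n × Fin n => A p.1 p.2) c) F = 0 := by
    intro A A' hA c
    obtain ⟨ψ, hψ⟩ := spec (k := k) k A A' hA c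
    have h1 : ((gA n d k).map (algebraMap (PA n d k)
        (Localization.Away (gA n d k).det))).map ψ = A := by
      ext i j
      rw [Matrix.map_apply, Matrix.map_apply, hψ]
      exact congrFun (congrFun (eval_gA (k := k) k A c) i) j
    have h2 : (((gA n d k).map (algebraMap (PA n d k)
        (Localization.Away (gA n d k).det)))⁻¹).map ψ = A' := by
      have h3 := congrArg (fun M : Matrix (Fin n) (Fin n) _ => M.map ψ) hmul
      simp only [Matrix.map_mul, h1] at h3
      have h4 : (1 : Matrix (Fin n) (Fin n) (Localization.Away (gA n d k).det)).map ψ = 1 := by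
        exact Matrix.map_one _ (map_zero ψ) (map_one ψ)
      rw [h4] at h3
      have h5 : A' * A = 1 := mul_eq_one_comm.mp hA
      rw [← Matrix.one_mul (((gA n d k).map (algebraMap (PA n d k)
        (Localization.Away (gA n d k).det)))⁻¹.map ψ), ← h5, Matrix.mul_assoc, h3, Matrix.mul_one]
    have h3 : ψ E = 0 := by
      rw [hE, Idn_map hB, h1, h2]
      have h4 : (fun a : Cf n d => ψ (algebraMap (PA n d k) (Localization.Away (gA n d k).det)
        (X (Sum.inr a)))) = c := by
        funext a
        rw [hψ, aeval_X, Sum.elim_inr]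
      rw [h4]
      unfold Idn
      have h5 := h A A' hA c
      rw [sub_eq_zero]
      exact h5
    have h4 := congrArg ψ hF
    rw [map_mul, h3, zero_mul, hψ] at h4
    exact h4.symm
  have hD : (gA n d k).det ≠ 0 := by
    intro h0
    have h1 := eval_det (k := k) (d := d) k (1 : Matrix (Fin n) (Fin n) k) (fun _ => 0)
    rw [h0, map_zero, Matrix.det_one] at h1
    exact zero_ne_one h1
  have hFD : F * (gA n d k).det = 0 := by
    apply MvPolynomial.funext
    intro x
    rw [map_mul, map_zero]
    have hx : x = Sum.elim (fun p : Fin n × Fin n =>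
        (Matrix.of fun i j => x (Sum.inl (i, j)) : Matrix (Fin n) (Fin n) k) p.1 p.2)
        (fun a => x (Sum.inr a)) := by
      funext t
      rcases t with ⟨i, j⟩ | a
      · rfl
      · rfl
    by_cases h0 : (Matrix.of fun i j => x (Sum.inl (i, j)) : Matrix (Fin n) (Fin n) k).det = 0
    · have h1 := eval_det (k := k) k (Matrix.of fun i j => x (Sum.inl (i, j)) :
        Matrix (Fin n) (Fin n) k) (fun a : Cf n d => x (Sum.inr a))
      rw [← hx, h0] at h1
      have h2 : eval x (gA n d k).det = 0 := h1
      rw [h2, mul_zero]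
    · have h1 := hpt _ _ (Matrix.mul_nonsing_inv _ (IsUnit.mk0 _ h0))
        (fun a : Cf n d => x (Sum.inr a))
      rw [← hx] at h1
      have h2 : eval x F = 0 := h1
      rw [h2, zero_mul]
  have hF0 : F = 0 := (mul_eq_zero.mp hFD).resolve_right hD
  rw [hF0, map_zero] at hF
  have hs : IsUnit (algebraMap (PA n d k) (Localization.Away (gA n d k).det) (s : PA n d k)) :=
    IsLocalization.map_units _ s
  exact (hs.mul_left_eq_zero).mp hF

end

theorem t_INVK (hB : S_BASE.{u}) : S_INVK.{u} := by
  intro k _ _ n d b P Q h S _ _ A A' hA c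
  obtain ⟨ψ, hψ⟩ := spec (k := k) S A A' hA c
  have hgen := generic hB b P Q h
  have hdet : algebraMap (PA n d k) (Localization.Away (gA n d k).det) (gA n d k).det =
      ((gA n d k).map (algebraMap (PA n d k) (Localization.Away (gA n d k).det))).det :=
    RingHom.map_det (algebraMap (PA n d k) (Localization.Away (gA n d k).det)) (gA n d k)
  have hunit : IsUnit ((gA n d k).map
      (algebraMap (PA n d k) (Localization.Away (gA n d k).det))).det := by
    rw [← hdet]
    exact IsLocalization.Away.algebraMap_isUnit _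
  have hmul := Matrix.mul_nonsing_inv _ hunit
  have h1 : ((gA n d k).map (algebraMap (PA n d k)
      (Localization.Away (gA n d k).det))).map ψ = A := by
    ext i j
    rw [Matrix.map_apply, Matrix.map_apply, hψ]
    exact congrFun (congrFun (eval_gA (k := k) S A c) i) j
  have h2 : (((gA n d k).map (algebraMap (PA n d k)
      (Localization.Away (gA n d k).det)))⁻¹).map ψ = A' := by
    have h3 := congrArg (fun M : Matrix (Fin n) (Fin n) _ => M.map ψ) hmul
    simp only [Matrix.map_mul, h1] at h3
    have h4 : (1 : Matrix (Fin n) (Fin n) (Localization.Away (gA n d k).det)).map ψ = 1 := by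
      exact Matrix.map_one _ (map_zero ψ) (map_one ψ)
    rw [h4] at h3
    have h5 : A' * A = 1 := mul_eq_one_comm.mp hA
    rw [← Matrix.one_mul (((gA n d k).map (algebraMap (PA n d k)
      (Localization.Away (gA n d k).det)))⁻¹.map ψ), ← h5, Matrix.mul_assoc, h3, Matrix.mul_one]
  have h3 := congrArg ψ hgen
  rw [Idn_map hB, h1, h2, map_zero] at h3
  have h4 : (fun a : Cf n d => ψ (algebraMap (PA n d k) (Localization.Away (gA n d k).det)
        (X (Sum.inr a)))) = c := by
    funext a
    rw [hψ, aeval_X, Sum.elim_inr]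
  rw [h4] at h3
  unfold Idn at h3
  exact sub_eq_zero.mp h3

end Pool.Agent.D0H52.SM
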