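import Pool.Agent.D0H90.SM.Stm2

set_option autoImplicit false

/-! Project SM (helper90), module ORB: regularity and vanishing at conjugate points. -/

namespace Pool.Agent.D0H52.SM

open MvPolynomial Matrix Pool.Agent.D0H90.SM

universe u

section

variable {k : Type u} [Field k] {n d : ℕ}

/-- composition of conjugations -/
theorem conj_conj (hB : S_BASE.{u}) [Infinite k] (A A' B B' : Matrix (Fin n) (Fin n) k)
    (c : Cf n d → k) : conj A A' (conj B B' c) = conj (B * A) (A' * B') c := by
  obtain ⟨h1, h2, -⟩ := hB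
  apply h2
  intro x
  rw [h1, h1, h1]
  simp only [Matrix.mulVec_mulVec]

theorem conj_one (hB : S_BASE.{u}) [Infinite k] (c : Cf n d → k) : conj 1 1 c = c := by
  obtain ⟨h1, h2, -⟩ := hB
  apply h2
  intro x
  rw [h1, Matrix.one_mulVec, Matrix.one_mulVec]

/-- the conjugate polynomial `v ↦ P(v^A)` -/
noncomputable def cp (A A' : Matrix (Fin n) (Fin n) k) (P : Pol n d k) : Pol n d k :=
  aeval (conj (A.map (C : k →+* Pol n d k)) (A'.map (C : k →+* Pol n d k))
    (fun a => (X a : Pol n d k))) P

theorem eval_cp (hB : S_BASE.{u}) (A A' : Matrix (Fin n) (Fin n) k) (P : Pol n d k)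
    (v : Cf n d → k) : eval v (cp A A' P) = eval (conj A A' v) P := by
  obtain ⟨-, -, -, -, h5, -⟩ := hB
  have h1 := h5 (Pol n d k) k (eval v) n d (fun a => (X a : Pol n d k))
    (A.map (C : k →+* Pol n d k)) (A'.map (C : k →+* Pol n d k))
  have h2 : ∀ M : Matrix (Fin n) (Fin n) k,
      (M.map (C : k →+* Pol n d k)).map (eval v) = M := by
    intro M
    ext i j
    rw [Matrix.map_apply, Matrix.map_apply, eval_C]
  rw [h2, h2] at h1
  have h3 : (fun a => eval v (X a : Pol n d k)) = v := by
    funext a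
    rw [eval_X]
  rw [h3] at h1
  unfold cp
  have h4 := MvPolynomial.comp_aeval_apply (R := k) (φ := aeval (R := k) v)
    (f := conj (A.map (C : k →+* Pol n d k)) (A'.map (C : k →+* Pol n d k))
    (fun a => (X a : Pol n d k))) P
  have h5 : aeval (R := k) v (aeval (R := k) (conj (A.map (C : k →+* Pol n d k))
      (A'.map (C : k →+* Pol n d k)) (fun a => (X a : Pol n d k))) P) =
      aeval (R := k) (conj A A' v) P := by
    rw [h4]
    congr 1
    rw [h1]
    rfl
  exact h5

theorem pair (hB : S_BASE.{u}) [Infinite k] (c : Cf n d → k) (A A' : Matrix (Fin n) (Fin n) k)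
    (hA : A * A' = 1) (F : Rat n d k) (P Q : Pol n d k) (hI : Invt P Q) (hQ : eval c Q ≠ 0)
    (hF : F * algebraMap (Pol n d k) (Rat n d k) Q = algebraMap (Pol n d k) (Rat n d k) P) :
    Invt (cp A' A P) (cp A' A Q) ∧ eval (conj A A' c) (cp A' A Q) = eval c Q ∧
      eval (conj A A' c) (cp A' A P) = eval c P ∧
      F * algebraMap (Pol n d k) (Rat n d k) (cp A' A Q) =
        algebraMap (Pol n d k) (Rat n d k) (cp A' A P) := by
  have hA' : A' * A = 1 := mul_eq_one_comm.mp hA
  have hback : conj A' A (conj A A' c) = c := by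
    rw [conj_conj hB, hA, conj_one hB]
  refine ⟨?_, ?_, ?_, ?_⟩
  · intro B B' hBB v
    rw [eval_cp hB, eval_cp hB, eval_cp hB, eval_cp hB]
    have h1 : conj A' A (conj B B' v) = conj (A * B * A') (A * B' * A') (conj A' A v) := by
      rw [conj_conj hB, conj_conj hB]
      have e1 : A' * (A * B * A') = B * A' := by
        rw [← Matrix.mul_assoc, ← Matrix.mul_assoc, hA', Matrix.one_mul]
      have e2 : A * B' * A' * A = A * B' := by
        rw [Matrix.mul_assoc, hA', Matrix.mul_one]
      rw [e1, e2]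
    rw [h1]
    apply hI
    have e3 : A * B * A' * (A * B' * A') = A * (B * (A' * A) * B') * A' := by
      simp only [Matrix.mul_assoc]
    rw [e3, hA', Matrix.mul_one, hBB, Matrix.mul_one, hA]
  · rw [eval_cp hB, hback]
  · rw [eval_cp hB, hback]
  · have h1 : P * cp A' A Q = cp A' A P * Q := by
      apply MvPolynomial.funext
      intro v
      rw [map_mul, map_mul, eval_cp hB, eval_cp hB]
      exact hI A' A hA' v
    have hQ0 : algebraMap (Pol n d k) (Rat n d k) Q ≠ 0 := by
      intro h0
      have h2 : Q = 0 := (IsFractionRing.injective (Pol n d k) (Rat n d k))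
        (h0.trans (map_zero _).symm)
      rw [h2, map_zero] at hQ
      exact hQ rfl
    apply mul_right_cancel₀ hQ0
    have h2 := congrArg (algebraMap (Pol n d k) (Rat n d k)) h1
    rw [map_mul, map_mul] at h2
    rw [← h2, ← hF]
    ring

end

theorem t_ORB (hB : S_BASE.{u}) (_ : S_INVK.{u}) : S_ORB.{u} := by
  intro k _ _ n d c A A' hA F
  constructor
  · rintro ⟨P, Q, hI, hQ, hF⟩
    obtain ⟨h1, h2, -, h4⟩ := pair hB c A A' hA F P Q hI hQ hF
    exact ⟨_, _, h1, by rw [h2]; exact hQ, h4⟩
  · rintro ⟨P, Q, hI, hQ, hP, hF⟩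
    obtain ⟨h1, h2, h3, h4⟩ := pair hB c A A' hA F P Q hI hQ hF
    exact ⟨_, _, h1, by rw [h2]; exact hQ, by rw [h3]; exact hP, h4⟩

end Pool.Agent.D0H52.SM
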